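import Pool.Agent.H50.SL.Word
import Pool.Agent.H73.SL.Main

/-!
# The slippery theorem for arbitrary words in any number of generators

`LiftGroup` is the group `G` of the problem.  For an element `w` of the free group on `n` generators
and `r = (r_1, ..., r_n)`, the number `R w r` is the supremum of the rotation numbers of `ρ w` over
all homomorphisms `ρ` to `G` for which the `i`-th generator has the rotation number `r_i`, and
`Rminus w r` is the supremum over those for which the image of the `i`-th generator is conjugate to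
the translation by `r_i`.  For `n = 2` these are the numbers `R(w, r, s)` and `R(w, r-, s-)`.
-/

set_option autoImplicit false

open CircleDeg1Lift Set Filter Topology

namespace Pool.Agent.Results.MP_2e5e1a_gt.SlipperyFreeGroups

/-- The group of all homeomorphisms `f` of the real line with `f (x + 1) = f x + 1` for all `x`
(composition as multiplication). -/
def LiftGroup : Subgroup (ℝ ≃ₜ ℝ) where
  carrier := {f | ∀ x : ℝ, f (x + 1) = f x + 1}
  mul_mem' := by
    intro f g hf hg x
    show f (g (x + 1)) = f (g x) + 1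
    rw [hg x, hf]
  one_mem' := fun x => rfl
  inv_mem' := by
    intro f hf x
    show f.symm (x + 1) = f.symm x + 1
    rw [f.symm_apply_eq, hf, f.apply_symm_apply]

/-- The rotation through `t`: the translation `x ↦ x + t`. -/
def rotation (t : ℝ) : LiftGroup :=
  ⟨Homeomorph.addRight t, fun x => by
    show x + 1 + t = x + t + 1
    ring⟩

/-- `t` is the rotation number of `f`: `(f ^ m x - x) / m → t` for every `x`. -/
def IsRot (f : LiftGroup) (t : ℝ) : Prop :=
  ∀ x : ℝ, Tendsto (fun m : ℕ => (((f ^ m : LiftGroup) : ℝ ≃ₜ ℝ) x - x) / (m : ℝ)) atTop (𝓝 t)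

variable {n : ℕ}

/-- The set of all `rot (ρ w)`, where `ρ` runs over the homomorphisms from the free group on `n`
generators to the group `LiftGroup` such that the image of the `i`-th generator has the rotation
number `r i` for every `i`. -/
def maxValues (w : FreeGroup (Fin n)) (r : Fin n → ℝ) : Set ℝ :=
  {t | ∃ ρ : FreeGroup (Fin n) →* LiftGroup,
    (∀ i, IsRot (ρ (FreeGroup.of i)) (r i)) ∧ IsRot (ρ w) t}

/-- The set of all `rot (ρ w)`, where `ρ` runs over the homomorphisms from the free group on `n`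
generators to the group `LiftGroup` such that the image of the `i`-th generator is conjugate to the
rotation through `r i` for every `i`. -/
def rotValues (w : FreeGroup (Fin n)) (r : Fin n → ℝ) : Set ℝ :=
  {t | ∃ ρ : FreeGroup (Fin n) →* LiftGroup,
    (∀ i, IsConj (ρ (FreeGroup.of i)) (rotation (r i))) ∧ IsRot (ρ w) t}

/-- `R(w, r)`: the supremum of `rot (ρ w)` over all `ρ` with given rotation numbers `r i` of the
generators (a maximum by part (4) of the theorem). -/
noncomputable def R (w : FreeGroup (Fin n)) (r : Fin n → ℝ) : ℝ := sSup (maxValues w r)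

/-- `R(w, r-)`: the supremum of `rot (ρ w)` over all `ρ` for which the generators are conjugate to
the rotations through `r i`. -/
noncomputable def Rminus (w : FreeGroup (Fin n)) (r : Fin n → ℝ) : ℝ := sSup (rotValues w r)

/-- `r` is slippery for `w`: `R(w, r') < R(w, r-)` for all tuples `r'` with `r' i < r i` for all
`i`. -/
def Slippery (w : FreeGroup (Fin n)) (r : Fin n → ℝ) : Prop :=
  ∀ r' : Fin n → ℝ, (∀ i, r' i < r i) → R w r' < Rminus w r

/-- the positive word given by a list of generators -/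
def positiveWord (l : List (Fin n)) : FreeGroup (Fin n) := (l.map FreeGroup.of).prod

/-- the exponent sum of the `i`-th generator in `w` -/
def expSum (i : Fin n) (w : FreeGroup (Fin n)) : ℤ :=
  Multiplicative.toAdd
    (FreeGroup.lift (fun j => Multiplicative.ofAdd (if j = i then (1 : ℤ) else 0)) w)

theorem mono_of_mem (f : ℝ ≃ₜ ℝ) (hf : f ∈ LiftGroup) : StrictMono f := by
  rcases f.continuous.strictMono_of_inj f.injective with h | h
  · exact h
  · exfalso
    have h1 := h (show (0 : ℝ) < 0 + 1 by norm_num)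
    have h2 := hf 0
    linarith

/-- the underlying degree one map -/
def toLift (f : LiftGroup) : CircleDeg1Lift where
  toFun := (f : ℝ ≃ₜ ℝ)
  monotone' := (mono_of_mem f f.2).monotone
  map_add_one' := f.2

/-- the isomorphism with the units of the monoid of degree one lifts -/
def toUnits : LiftGroup →* CircleDeg1Liftˣ where
  toFun f := ⟨toLift f, toLift f⁻¹, by
      ext x
      show (f : ℝ ≃ₜ ℝ) ((f : ℝ ≃ₜ ℝ).symm x) = x
      exact (f : ℝ ≃ₜ ℝ).apply_symm_apply x, by
      ext x
      show (f : ℝ ≃ₜ ℝ).symm ((f : ℝ ≃ₜ ℝ) x) = x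
      exact (f : ℝ ≃ₜ ℝ).symm_apply_apply x⟩
  map_one' := by
    ext x
    rfl
  map_mul' f g := by
    ext x
    rfl

theorem toUnits_apply (f : LiftGroup) (x : ℝ) :
    (toUnits f : CircleDeg1Lift) x = (f : ℝ ≃ₜ ℝ) x := rfl

/-- the inverse isomorphism -/
noncomputable def ofUnits : CircleDeg1Liftˣ →* LiftGroup where
  toFun u := ⟨(toOrderIso u).toHomeomorph, fun x => by
    show u (x + 1) = u x + 1
    exact CircleDeg1Lift.map_add_one _ x⟩
  map_one' := by
    apply Subtype.ext
    ext x
    rfl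
  map_mul' u v := by
    apply Subtype.ext
    ext x
    rfl

theorem toUnits_ofUnits (u : CircleDeg1Liftˣ) : toUnits (ofUnits u) = u := by
  ext x
  rfl

theorem ofUnits_toUnits (f : LiftGroup) : ofUnits (toUnits f) = f := by
  apply Subtype.ext
  ext x
  rfl

theorem toUnits_rotation (t : ℝ) : toUnits (rotation t) = translate (Multiplicative.ofAdd t) := by
  ext x
  rw [toUnits_apply, translate_apply]
  show x + t = t + x
  ring

theorem ofUnits_translate (t : ℝ) : ofUnits (translate (Multiplicative.ofAdd t)) = rotation t := by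
  rw [← toUnits_rotation, ofUnits_toUnits]

theorem isRot_translationNumber (f : LiftGroup) :
    IsRot f (translationNumber (toUnits f : CircleDeg1Lift)) := by
  intro x
  have h := tendsto_translationNumber (toUnits f : CircleDeg1Lift) x
  refine h.congr fun m => ?_
  have : ((toUnits f : CircleDeg1Lift) ^ m) x = ((f ^ m : LiftGroup) : ℝ ≃ₜ ℝ) x := by
    rw [← toUnits_apply, map_pow, Units.val_pow_eq_pow_val]
  rw [this]

theorem isRot_iff (f : LiftGroup) (t : ℝ) :
    IsRot f t ↔ t = translationNumber (toUnits f : CircleDeg1Lift) := by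
  constructor
  · intro h
    exact tendsto_nhds_unique (h 0) (isRot_translationNumber f 0)
  · rintro rfl
    exact isRot_translationNumber f

theorem rotValues_eq (w : FreeGroup (Fin n)) (r : Fin n → ℝ) :
    rotValues w r = Pool.Agent.H50.SL.setConj w r := by
  ext t
  constructor
  · rintro ⟨ρ, h0, h2⟩
    refine ⟨toUnits.comp ρ, ?_, (isRot_iff _ _).1 h2⟩
    intro i
    have := toUnits.map_isConj (h0 i)
    rwa [toUnits_rotation] at this
  · rintro ⟨ρ, h0, h2⟩
    refine ⟨ofUnits.comp ρ, ?_, ?_⟩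
    · intro i
      have := ofUnits.map_isConj (h0 i)
      rwa [ofUnits_translate] at this
    · rw [isRot_iff, h2]
      simp only [MonoidHom.comp_apply]
      rw [toUnits_ofUnits]

theorem maxValues_eq (w : FreeGroup (Fin n)) (r : Fin n → ℝ) :
    maxValues w r = Pool.Agent.H50.SL.setMax w r := by
  ext t
  constructor
  · rintro ⟨ρ, h0, h2⟩
    exact ⟨toUnits.comp ρ, fun i => ((isRot_iff _ _).1 (h0 i)).symm, (isRot_iff _ _).1 h2⟩
  · rintro ⟨ρ, h0, h2⟩
    refine ⟨ofUnits.comp ρ, ?_, ?_⟩
    · intro i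
      rw [isRot_iff]
      simp only [MonoidHom.comp_apply]
      rw [toUnits_ofUnits, h0]
    · rw [isRot_iff, h2]
      simp only [MonoidHom.comp_apply]
      rw [toUnits_ofUnits]

theorem expSum_positiveWord (i : Fin n) (l : List (Fin n)) :
    expSum i (positiveWord l) = l.count i := by
  induction l with
  | nil => simp [expSum, positiveWord]
  | cons j l ih =>
    have e : positiveWord (j :: l) = FreeGroup.of j * positiveWord l := by
      simp [positiveWord]
    have e2 : expSum i (positiveWord (j :: l)) = (if j = i then 1 else 0) +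
        expSum i (positiveWord l) := by
      rw [e, expSum, map_mul, toAdd_mul, FreeGroup.lift_apply_of, toAdd_ofAdd]
      rfl
    rw [e2, ih, List.count_cons]
    by_cases h : j = i
    · subst h; simp [add_comm]
    · simp [h]

theorem general (w : FreeGroup (Fin n)) (r : Fin n → ℝ)
    (h : ∃ᶠ r' : Fin n → ℝ in 𝓝 r, Rminus w r' < Rminus w r) :
    Rminus w r = ∑ i, (expSum i w : ℝ) * r i := by
  have h' : ∃ᶠ r' : Fin n → ℝ in 𝓝 r, sSup (Pool.Agent.H50.SL.setConj w r') <
      sSup (Pool.Agent.H50.SL.setConj w r) := by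
    refine h.mono fun r' hr' => ?_
    unfold Rminus at hr'
    rwa [rotValues_eq, rotValues_eq] at hr'
  have := Pool.Agent.H50.SL.slippery_n w r (h'.mono fun r' hr' t ht =>
    lt_of_le_of_lt (le_csSup (Pool.Agent.H50.SL.setConj_bdd w r') ht) hr')
  unfold Rminus
  rw [rotValues_eq, this]
  rfl

theorem Rminus_le_R (w : FreeGroup (Fin n)) (r : Fin n → ℝ) : Rminus w r ≤ R w r := by
  unfold Rminus R
  rw [maxValues_eq, rotValues_eq]
  exact csSup_le_csSup (Pool.Agent.H50.SL.setMax_bdd w r) (Pool.Agent.H50.SL.setConj_nonempty w r)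
    (Pool.Agent.H50.SL.setConj_sub w r)

theorem toUnits_hom (ρ : FreeGroup (Fin n) →* LiftGroup) (w : FreeGroup (Fin n)) :
    toUnits (ρ w) = FreeGroup.lift (fun i => toUnits (ρ (FreeGroup.of i))) w := by
  have h : toUnits.comp ρ = FreeGroup.lift (fun i => toUnits (ρ (FreeGroup.of i))) := by
    apply FreeGroup.ext_hom
    intro i
    rw [FreeGroup.lift_apply_of]
    rfl
  rw [← h]
  rfl

theorem toUnits_lift (A : Fin n → CircleDeg1Liftˣ) (w : FreeGroup (Fin n)) :
    toUnits (FreeGroup.lift (fun i => ofUnits (A i)) w) = FreeGroup.lift A w := by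
  rw [toUnits_hom]
  simp only [FreeGroup.lift_apply_of, toUnits_ofUnits]

theorem rotValues_eq' (w : FreeGroup (Fin n)) (r : Fin n → ℝ) :
    rotValues w r = Pool.Agent.H73.SL.conjSet w r := by
  ext t
  constructor
  · rintro ⟨ρ, h0, h2⟩
    refine ⟨fun i => toUnits (ρ (FreeGroup.of i)), fun i => ?_, ?_⟩
    · have := toUnits.map_isConj (h0 i)
      rwa [toUnits_rotation] at this
    · rw [← toUnits_hom]
      exact (isRot_iff _ _).1 h2
  · rintro ⟨A, h0, h2⟩
    refine ⟨FreeGroup.lift (fun i => ofUnits (A i)), fun i => ?_, ?_⟩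
    · have := ofUnits.map_isConj (h0 i)
      rw [FreeGroup.lift_apply_of]
      rwa [ofUnits_translate] at this
    · rw [isRot_iff, h2, toUnits_lift]

theorem maxValues_eq' (w : FreeGroup (Fin n)) (r : Fin n → ℝ) :
    maxValues w r = Pool.Agent.H73.SL.rotSetI w r := by
  ext t
  constructor
  · rintro ⟨ρ, h0, h2⟩
    refine ⟨fun i => toUnits (ρ (FreeGroup.of i)), fun i => ((isRot_iff _ _).1 (h0 i)).symm, ?_⟩
    rw [← toUnits_hom]
    exact (isRot_iff _ _).1 h2
  · rintro ⟨A, h0, h2⟩
    refine ⟨FreeGroup.lift (fun i => ofUnits (A i)), fun i => ?_, ?_⟩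
    · rw [FreeGroup.lift_apply_of, isRot_iff, toUnits_ofUnits, h0 i]
    · rw [isRot_iff, h2, toUnits_lift]

theorem dichotomy (w : FreeGroup (Fin n)) (K : Set (FreeGroup (Fin n) →* LiftGroup))
    (hK : ∀ ρ ∈ K, ∀ u : Fin n → LiftGroup,
      FreeGroup.lift (fun i => u i * ρ (FreeGroup.of i) * (u i)⁻¹) ∈ K) (θ : ℝ)
    (hθ : ∀ ρ ∈ K, ∀ t, IsRot (ρ w) t → t ≤ θ)
    (ρ : ℕ → FreeGroup (Fin n) →* LiftGroup) (hρ : ∀ m, ρ m ∈ K) (s : ℕ → Fin n → ℝ)
    (r : Fin n → ℝ) (hs : ∀ m i, IsRot (ρ m (FreeGroup.of i)) (s m i))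
    (hsr : ∀ i, Tendsto (fun m => s m i) atTop (𝓝 (r i)))
    (t : ℕ → ℝ) (ht : ∀ m, IsRot (ρ m w) (t m)) (htθ : Tendsto t atTop (𝓝 θ)) :
    θ = ∑ i, (expSum i w : ℝ) * r i ∨ ((∃ q : ℚ, θ = q) ∧ ∃ ρ ∈ K, IsRot (ρ w) θ) := by
  have key := Pool.Agent.H73.SL.dichotomy w
    {A : Fin n → CircleDeg1Liftˣ | FreeGroup.lift (fun i => ofUnits (A i)) ∈ K} ?_ r θ ?_ ?_
  · rcases key with h | ⟨h1, A, hA, h2⟩
    · exact Or.inl h
    · refine Or.inr ⟨h1, _, hA, ?_⟩
      rw [isRot_iff, toUnits_lift]
      exact h2.symm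
  · intro A hA u
    have := hK _ hA (fun i => ofUnits (u i))
    simp only [FreeGroup.lift_apply_of] at this
    show FreeGroup.lift (fun i => ofUnits (u i * A i * (u i)⁻¹)) ∈ K
    simp only [map_mul, map_inv]
    exact this
  · intro A hA
    refine hθ _ hA _ ?_
    rw [isRot_iff, toUnits_lift]
  · intro m'
    have hpos : (0 : ℝ) < 1 / ((m' : ℝ) + 1) := by positivity
    have h1 : ∀ᶠ m in atTop, ∀ i, |s m i - r i| ≤ 1 / ((m' : ℝ) + 1) := by
      rw [eventually_all]
      intro i
      filter_upwards [(hsr i).eventually (Metric.closedBall_mem_nhds _ hpos)] with m hm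
      rwa [Real.dist_eq] at hm
    have h2 : ∀ᶠ m in atTop, θ - 1 / ((m' : ℝ) + 1) < t m :=
      htθ.eventually (lt_mem_nhds (by linarith))
    obtain ⟨m, hm1, hm2⟩ := (h1.and h2).exists
    have e : FreeGroup.lift (fun i => ofUnits (toUnits (ρ m (FreeGroup.of i)))) = ρ m := by
      apply FreeGroup.ext_hom
      intro i
      rw [FreeGroup.lift_apply_of, ofUnits_toUnits]
    refine ⟨fun i => toUnits (ρ m (FreeGroup.of i)), ?_, fun i => ?_, ?_⟩
    · show FreeGroup.lift (fun i => ofUnits (toUnits (ρ m (FreeGroup.of i)))) ∈ K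
      rw [e]
      exact hρ m
    · rw [← (isRot_iff _ _).1 (hs m i)]
      exact hm1 i
    · rw [← toUnits_hom, ← (isRot_iff _ _).1 (ht m)]
      exact hm2

/-- (1) The weak slippery conjecture, for positive words in any number `n` of generators: if `w` is
a positive word and `r` is slippery for `w`, then `R(w, r-) = ∑ i, h_i(w) r_i`, where `h_i(w)` is the
number of letters `i` in `w`.  Q1 is the case `n = 2`.
(2) For EVERY element `w` of the free group on `n` generators and EVERY `r`: either
`R(w, r-) = ∑ i, h_i(w) r_i`, where `h_i(w)` is the exponent sum of the `i`-th generator, or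
`R(w, r-)` is rational and `R(w, r'-) ≥ R(w, r-)` for all `r'` in a neighbourhood of `r`.
(3) For every `w` and every `r`: either `R(w, r) = ∑ i, h_i(w) r_i` or `R(w, r)` is rational.
(4) For every `w` and every `r` the suprema `R(w, r)` and `R(w, r-)` are maxima (they are rotation
numbers of `ρ w` for representations `ρ` as in their definitions), and `R(w, r-) ≤ R(w, r)`.
(5) Let `K` be a set of representations which is invariant under conjugating the images of the
generators independently, and let `θ` be an upper bound of the numbers `rot (ρ w)`, `ρ ∈ K`.  If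
there are `ρ_m ∈ K` with `rot (ρ_m w) → θ` and `rot (ρ_m a_i) → r_i` for all `i`, then
`θ = ∑ i, h_i(w) r_i`, or `θ` is rational and `θ = rot (ρ w)` for some `ρ ∈ K`. -/
theorem result :
    (∀ (n : ℕ) (l : List (Fin n)) (r : Fin n → ℝ), Slippery (positiveWord l) r →
      Rminus (positiveWord l) r = ∑ i, (l.count i : ℝ) * r i) ∧
    (∀ (n : ℕ) (w : FreeGroup (Fin n)) (r : Fin n → ℝ),
      Rminus w r = ∑ i, (expSum i w : ℝ) * r i ∨
        ((∃ q : ℚ, Rminus w r = q) ∧ IsLocalMin (Rminus w) r)) ∧
    (∀ (n : ℕ) (w : FreeGroup (Fin n)) (r : Fin n → ℝ),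
      R w r = ∑ i, (expSum i w : ℝ) * r i ∨ ∃ q : ℚ, R w r = q) ∧
    (∀ (n : ℕ) (w : FreeGroup (Fin n)) (r : Fin n → ℝ),
      IsGreatest (maxValues w r) (R w r) ∧ IsGreatest (rotValues w r) (Rminus w r) ∧
        Rminus w r ≤ R w r) ∧
    (∀ (n : ℕ) (w : FreeGroup (Fin n)) (K : Set (FreeGroup (Fin n) →* LiftGroup)),
      (∀ ρ ∈ K, ∀ u : Fin n → LiftGroup,
        FreeGroup.lift (fun i => u i * ρ (FreeGroup.of i) * (u i)⁻¹) ∈ K) →
      ∀ θ : ℝ, (∀ ρ ∈ K, ∀ t, IsRot (ρ w) t → t ≤ θ) →
      ∀ (ρ : ℕ → FreeGroup (Fin n) →* LiftGroup), (∀ m, ρ m ∈ K) →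
      ∀ (s : ℕ → Fin n → ℝ) (r : Fin n → ℝ), (∀ m i, IsRot (ρ m (FreeGroup.of i)) (s m i)) →
      (∀ i, Tendsto (fun m => s m i) atTop (𝓝 (r i))) →
      ∀ t : ℕ → ℝ, (∀ m, IsRot (ρ m w) (t m)) → Tendsto t atTop (𝓝 θ) →
      θ = ∑ i, (expSum i w : ℝ) * r i ∨ ((∃ q : ℚ, θ = q) ∧ ∃ ρ ∈ K, IsRot (ρ w) θ)) := by
  refine ⟨fun n l r h => ?_, fun n w r => ?_, fun n w r => ?_, fun n w r => ?_,
    fun n w K hK θ hθ ρ hρ s r hs hsr t ht htθ => dichotomy w K hK θ hθ ρ hρ s r hs hsr t ht htθ⟩
  · have hfr : ∃ᶠ r' : Fin n → ℝ in 𝓝 r, Rminus (positiveWord l) r' < Rminus (positiveWord l) r := by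
      have ht : Tendsto (fun δ : ℝ => fun i => r i - δ) (𝓝[>] 0) (𝓝 r) := by
        have hc : Continuous fun δ : ℝ => fun i => r i - δ := by fun_prop
        have h0 := hc.tendsto 0
        simp only [sub_zero] at h0
        exact h0.mono_left nhdsWithin_le_nhds
      refine ht.frequently ?_
      refine Filter.Eventually.frequently ?_
      filter_upwards [self_mem_nhdsWithin] with δ hδ
      refine lt_of_le_of_lt (Rminus_le_R _ _) (h _ fun i => ?_)
      have : (0 : ℝ) < δ := hδ
      linarith
    rw [general _ r hfr]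
    refine Finset.sum_congr rfl fun i _ => ?_
    rw [expSum_positiveWord]
    push_cast
    rfl
  · by_cases hm : IsLocalMin (Rminus w) r
    · have hq := (Pool.Agent.H73.SL.conj_max w r).2
      rw [← rotValues_eq'] at hq
      rcases hq with hq | hq
      · exact Or.inr ⟨hq, hm⟩
      · exact Or.inl hq
    · left
      apply general
      unfold IsLocalMin IsMinFilter at hm
      rw [Filter.not_eventually] at hm
      exact hm.mono fun r' hr' => not_le.1 hr'
  · have hq := (Pool.Agent.H73.SL.rot_max w r).2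
    rw [← maxValues_eq'] at hq
    rcases hq with hq | hq
    · exact Or.inr hq
    · exact Or.inl hq
  · refine ⟨?_, ?_, Rminus_le_R w r⟩
    · unfold R
      rw [maxValues_eq]
      exact Pool.Agent.H50.SL.setMax_greatest w r
    · unfold Rminus
      rw [rotValues_eq]
      exact Pool.Agent.H50.SL.setConj_greatest w r

end Pool.Agent.Results.MP_2e5e1a_gt.SlipperyFreeGroups
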